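import Pool.Agent.R770.RP6.Main

/-!
# Real projective 6-space has a triangulation with 39 vertices

The triangulation is the antipodal quotient of the boundary complex of a centrally symmetric
simplicial 7-polytope with `78` vertices and `7912` facets. The polytope is the Gosset polytope
`3_21` (the convex hull of the `56` minuscule weights of the root system `E_7`; it has `576`
simplex facets and `126` cross-polytope facets) with `22` further vertices. Each of these sits over
one of the simplex facets, and sees this facet and some of the seven adjacent cross-polytopes; every
cross-polytope facet is seen by exactly one further vertex. In the resulting polytope no vertex is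
joined by an edge to two antipodal vertices, hence the antipodal quotient of the boundary complex is
a simplicial complex.

The vertices, the facets up to sign, their supporting functionals and the adjacencies are listed in
`Pool.Agent.R770.RP6.Data` and checked by evaluation in the kernel.
-/

set_option autoImplicit false

namespace Pool.Agent.Results.MP_b4345b_gt.RP6Vertices39

/-- There is a geometric simplicial complex with exactly `39` vertices whose underlying space is
homeomorphic to real projective 6-space, the quotient of the unit sphere of `ℝ^7` by the antipodal
map. -/
theorem result : ∃ n : ℕ, ∃ K : Geometry.SimplicialComplex ℝ (EuclideanSpace ℝ (Fin n)),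
    K.vertices.ncard = 39 ∧
    Nonempty (K.space ≃ₜ
      Quot (fun x y : Metric.sphere (0 : EuclideanSpace ℝ (Fin 7)) 1 =>
        (x : EuclideanSpace ℝ (Fin 7)) = (y : EuclideanSpace ℝ (Fin 7)) ∨
        (x : EuclideanSpace ℝ (Fin 7)) = -(y : EuclideanSpace ℝ (Fin 7)))) :=
  ⟨39, Pool.Agent.R770.RP6.exists_39⟩

end Pool.Agent.Results.MP_b4345b_gt.RP6Vertices39
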